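import Pool.Agent.H38.Dbr.Red

/-!
Recognising induced subgraphs of binary De Bruijn graphs is NP-hard.
-/

namespace Pool.Agent.Results.MP_868529_lc.Hard

open Pool.Agent.H38.NP Pool.Agent.H38.Dbr

theorem result : NPHard (lang DB) := db_nph.npHard fun _ _ => Iff.rfl

end Pool.Agent.Results.MP_868529_lc.Hard
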